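import Mathlib

/-!
# The disjoint union of chains with three and two elements has no rank-preserving interval realizer
-/

set_option autoImplicit false

namespace Pool.Agent.Results.MP_f8d954_co.ThreePlusTwo

/-- The strict part of a relation. -/
def Strict {P : Type} (r : P → P → Prop) (x y : P) : Prop := r x y ∧ x ≠ y

/-- `r` is an interval order: a partial order such that there are no four points `a, b, c, d` with
`a ⊏ c`, `b ⊏ d`, not `b ⊑ c` and not `a ⊑ d`. -/
def IsIntervalOrder {P : Type} (r : P → P → Prop) : Prop :=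
  IsPartialOrder P r ∧
    ¬ ∃ a b c d, Strict r a c ∧ Strict r b d ∧ ¬ r b c ∧ ¬ r a d

/-- The rank of `p`: the length (number of elements minus one) of a longest chain whose largest
element is `p`. -/
noncomputable def rank {P : Type} (r : P → P → Prop) (p : P) : ℕ :=
  sSup {n | ∃ f : Fin (n + 1) → P, (∀ i j, i < j → Strict r (f i) (f j)) ∧ f (Fin.last n) = p}

/-- `L` is an interval realizer of the order of `P`. -/
def IsIntervalRealizer (P : Type) [PartialOrder P] {k : ℕ} (L : Fin k → P → P → Prop) : Prop :=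
  (∀ j, IsIntervalOrder (L j)) ∧ ∀ x y, x ≤ y ↔ ∀ j, L j x y

/-- The interval dimension: the least size of an interval realizer. -/
noncomputable def intervalDim (P : Type) [PartialOrder P] : ℕ :=
  sInf {k | ∃ L : Fin k → P → P → Prop, IsIntervalRealizer P L}

/-- `L` is a rank-preserving interval realizer of the order of `P`. -/
def IsRankPreserving (P : Type) [PartialOrder P] {k : ℕ} (L : Fin k → P → P → Prop) : Prop :=
  IsIntervalRealizer P L ∧ ∀ j p, rank (L j) p = rank (fun x y : P => x ≤ y) p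

/-- The disjoint union of a chain with three elements and a chain with two elements. -/
abbrev Q : Type := Fin 3 ⊕ Fin 2

instance decQ : ∀ x y : Q, Decidable (x ≤ y)
  | Sum.inl _, Sum.inl _ => decidable_of_iff _ Sum.inl_le_inl_iff.symm
  | Sum.inl _, Sum.inr _ => isFalse Sum.not_inl_le_inr
  | Sum.inr _, Sum.inl _ => isFalse Sum.not_inr_le_inl
  | Sum.inr _, Sum.inr _ => decidable_of_iff _ Sum.inr_le_inr_iff.symm

/-- a linear extension -/
def key0 : Q → ℕ
  | Sum.inl i => i
  | Sum.inr i => 3 + i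

/-- a linear extension -/
def key1 : Q → ℕ
  | Sum.inl i => 2 + i
  | Sum.inr i => i

lemma key_interval (key : Q → ℕ) (hkey : Function.Injective key) :
    IsIntervalOrder (fun x y => key x ≤ key y) := by
  refine ⟨{ refl := fun a => le_refl _, trans := fun a b c => le_trans,
            antisymm := fun a b h1 h2 => hkey (le_antisymm h1 h2) }, ?_⟩
  rintro ⟨a, b, c, d, ⟨h1, -⟩, ⟨h2, -⟩, h3, h4⟩
  simp only [not_le] at h1 h2 h3 h4
  omega

lemma inj0 : Function.Injective key0 := by decide
lemma inj1 : Function.Injective key1 := by decide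
lemma key_le : ∀ x y : Q, x ≤ y ↔ (key0 x ≤ key0 y ∧ key1 x ≤ key1 y) := by decide

lemma dim_le : ∃ L : Fin 2 → Q → Q → Prop, IsIntervalRealizer Q L := by
  refine ⟨fun j => if j = 0 then (fun x y => key0 x ≤ key0 y) else (fun x y => key1 x ≤ key1 y),
    ?_, ?_⟩
  · intro j
    by_cases hj : j = 0
    · simp only [hj, if_true]
      exact key_interval _ inj0
    · simp only [hj, if_false]
      exact key_interval _ inj1
  · intro x y
    rw [key_le, Fin.forall_fin_two]
    simp

lemma not_interval : ¬ IsIntervalOrder (fun x y : Q => x ≤ y) := by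
  rintro ⟨-, h⟩
  apply h
  have h1 : (Sum.inl 0 : Q) ≤ Sum.inl 1 := by decide
  have h2 : (Sum.inr 0 : Q) ≤ Sum.inr 1 := by decide
  have h3 : ¬ (Sum.inr 0 : Q) ≤ Sum.inl 1 := by decide
  have h4 : ¬ (Sum.inl 0 : Q) ≤ Sum.inr 1 := by decide
  exact ⟨Sum.inl 0, Sum.inr 0, Sum.inl 1, Sum.inr 1, ⟨h1, by decide⟩, ⟨h2, by decide⟩, h3, h4⟩

lemma intervalDim_eq : intervalDim Q = 2 := by
  apply le_antisymm (Nat.sInf_le dim_le)
  have hne : {k | ∃ L : Fin k → Q → Q → Prop, IsIntervalRealizer Q L}.Nonempty := ⟨2, dim_le⟩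
  refine le_csInf hne ?_
  rintro k ⟨L, hL1, hL2⟩
  by_contra hk
  have hk' : k = 0 ∨ k = 1 := by omega
  rcases hk' with rfl | rfl
  · have := (hL2 (Sum.inl 0) (Sum.inr 0)).mpr (fun j => j.elim0)
    exact absurd this (by decide)
  · have : L 0 = fun x y : Q => x ≤ y := by
      funext x y
      rw [eq_iff_iff, hL2 x y, Fin.forall_fin_one]
    have h := hL1 0
    rw [this] at h
    exact not_interval h

lemma chain_bdd (r : Q → Q → Prop) (p : Q) :
    BddAbove {n | ∃ f : Fin (n + 1) → Q, (∀ i j, i < j → Strict r (f i) (f j)) ∧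
      f (Fin.last n) = p} := by
  refine ⟨5, ?_⟩
  rintro n ⟨f, hf, -⟩
  have hinj : Function.Injective f := by
    intro i j hij
    by_contra hne
    rcases lt_or_gt_of_ne hne with h | h
    · exact (hf i j h).2 hij
    · exact (hf j i h).2 hij.symm
  have := Fintype.card_le_of_injective f hinj
  simp at this
  omega

/-- The rank of the upper element of the two-element chain is one. -/
lemma rank_top : rank (fun x y : Q => x ≤ y) (Sum.inr 1) ≤ 1 := by
  apply csSup_le'
  rintro n ⟨f, hf, hlast⟩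
  by_contra hn
  have hn : 2 ≤ n := by omega
  have h1 := hf ⟨n - 2, by omega⟩ ⟨n - 1, by omega⟩ (by simp only [Fin.mk_lt_mk]; omega)
  have h2 := hf ⟨n - 1, by omega⟩ (Fin.last n) (by rw [Fin.lt_def]; simp only [Fin.val_last]; omega)
  rw [hlast] at h2
  have key : ∀ x y : Q, x ≤ y → x ≠ y → y ≤ Sum.inr 1 → y ≠ Sum.inr 1 → False := by decide
  exact key _ _ h1.1 h1.2 h2.1 h2.2

/-- The disjoint union `Q` of chains with three and two elements has interval dimension two, but it
has no rank-preserving interval realizer, of any size. -/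
theorem result : intervalDim Q = 2 ∧
    ∀ (k : ℕ) (L : Fin k → Q → Q → Prop), ¬ IsRankPreserving Q L := by
  refine ⟨intervalDim_eq, ?_⟩
  rintro k L ⟨⟨hL1, hL2⟩, hrank⟩
  -- some `L j` does not have `inr 0` below `inl 2`
  have hnot : ¬ ∀ j, L j (Sum.inr 0) (Sum.inl 2) := by
    rw [← hL2]
    decide
  push Not at hnot
  obtain ⟨j, hj⟩ := hnot
  have hext : ∀ x y : Q, x ≤ y → L j x y := fun x y h => (hL2 x y).mp h j
  obtain ⟨hpo, hint⟩ := hL1 j
  have h1 : L j (Sum.inl 1) (Sum.inr 1) := by
    by_contra hcon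
    apply hint
    exact ⟨Sum.inl 1, Sum.inr 0, Sum.inl 2, Sum.inr 1, ⟨hext _ _ (by decide), by decide⟩,
      ⟨hext _ _ (by decide), by decide⟩, hj, hcon⟩
  have h0 : L j (Sum.inl 0) (Sum.inl 1) := hext _ _ (by decide)
  have h2 : L j (Sum.inl 0) (Sum.inr 1) := hpo.trans _ _ _ h0 h1
  have h3 : 2 ≤ rank (L j) (Sum.inr 1) := by
    apply le_csSup (chain_bdd _ _)
    refine ⟨![Sum.inl 0, Sum.inl 1, Sum.inr 1], ?_, rfl⟩
    intro a b hab
    fin_cases a <;> fin_cases b <;> simp at hab
    · exact ⟨h0, by decide⟩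
    · exact ⟨h2, by decide⟩
    · exact ⟨h1, by decide⟩
  have h4 := hrank j (Sum.inr 1)
  have h5 := rank_top
  omega

end Pool.Agent.Results.MP_f8d954_co.ThreePlusTwo
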